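import Pool.Agent.N569.VT.Defs

/-!
# Project VT, part VT1: linkages and matrices
-/

set_option autoImplicit false

namespace Pool.Agent.N271.VT

open Pool.Agent.H891R2.Jones Pool.Agent.W639.RB Pool.Agent.TH561 Pool.Agent.N569.TW Pool.Agent.N569.VT
  Finset LaurentPolynomial

variable {m : ℕ}

theorem mat_mul (X Y : Lk m) (N : ℕ) : (X.mul Y).mat N = X.mat N * Y.mat N := by
  classical
  ext x z
  rw [Matrix.mul_apply]
  have h1 : ∑ y : Fin m → Fin N, X.mat N x y * Y.mat N y z =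
      ∑ c : X.Q → Fin N, ∑ c' : Y.Q → Fin N, ind ((c ∘ X.l = x ∧
        ∀ p q, X.R p q → c p = c q) ∧ (c' ∘ Y.l = c ∘ X.u ∧ c' ∘ Y.u = z ∧
        ∀ p q, Y.R p q → c' p = c' q)) := by
    simp only [Lk.mat, Matrix.of_apply, Finset.sum_mul_sum]
    rw [Finset.sum_comm]
    refine Finset.sum_congr rfl fun c _ => ?_
    rw [Finset.sum_comm]
    refine Finset.sum_congr rfl fun c' _ => ?_
    rw [Finset.sum_eq_single (c ∘ X.u)]
    · rw [ind_mul]
      refine ind_congr (and_congr (and_congr Iff.rfl ?_) Iff.rfl)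
      exact ⟨fun h => h.2, fun h => ⟨rfl, h⟩⟩
    · intro y _ hy
      rw [ind_neg, zero_mul]
      rintro ⟨_, h, _⟩
      exact hy h.symm
    · intro h
      exact absurd (Finset.mem_univ _) h
  have h2 : (X.mul Y).mat N x z = ∑ p : (X.Q → Fin N) × (Y.Q → Fin N),
      ind ((p.1 ∘ X.l = x ∧
        ∀ a b, X.R a b → p.1 a = p.1 b) ∧ (p.2 ∘ Y.l = p.1 ∘ X.u ∧ p.2 ∘ Y.u = z ∧
        ∀ a b, Y.R a b → p.2 a = p.2 b)) := by
    have h3 : (X.mul Y).mat N x z = ∑ c : X.Q ⊕ Y.Q → Fin N,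
        ind (c ∘ (Sum.inl ∘ X.l) = x ∧ c ∘ (Sum.inr ∘ Y.u) = z ∧
          ∀ p q, (X.mul Y).R p q → c p = c q) := rfl
    rw [h3]
    refine Fintype.sum_equiv (Equiv.sumArrowEquivProdArrow X.Q Y.Q (Fin N)) _ _ fun c => ?_
    refine ind_congr ?_
    have e1 : (Equiv.sumArrowEquivProdArrow X.Q Y.Q (Fin N) c).1 = c ∘ Sum.inl := rfl
    have e2 : (Equiv.sumArrowEquivProdArrow X.Q Y.Q (Fin N) c).2 = c ∘ Sum.inr := rfl
    rw [e1, e2]
    constructor
    · rintro ⟨h4, h5, h6⟩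
      refine ⟨⟨h4, fun a b hab => h6 _ _ (Or.inl ⟨a, b, rfl, rfl, hab⟩)⟩, ?_, h5,
        fun a b hab => h6 _ _ (Or.inr (Or.inl ⟨a, b, rfl, rfl, hab⟩))⟩
      funext j
      exact (h6 _ _ (Or.inr (Or.inr ⟨j, rfl, rfl⟩))).symm
    · rintro ⟨⟨h4, h5⟩, h6, h7, h8⟩
      refine ⟨h4, h7, ?_⟩
      rintro p q (⟨a, b, rfl, rfl, hab⟩ | ⟨a, b, rfl, rfl, hab⟩ | ⟨j, rfl, rfl⟩)
      · exact h5 a b hab
      · exact h8 a b hab
      · exact (congrFun h6 j).symm
  rw [h1, h2, Fintype.sum_prod_type]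

theorem mat_one (N : ℕ) : (Lk.one m).mat N = 1 := by
  classical
  ext x y
  have h3 : (Lk.one m).mat N x y = ∑ c : Fin m → Fin N,
      ind (c ∘ id = x ∧ c ∘ id = y ∧ ∀ p q, (Lk.one m).R p q → c p = c q) := rfl
  rw [h3, Matrix.one_apply, Finset.sum_eq_single x]
  · by_cases hxy : x = y
    · rw [if_pos hxy, ind_pos]
      exact ⟨rfl, hxy, fun _ _ h => h.elim⟩
    · rw [if_neg hxy, ind_neg]
      rintro ⟨-, h, -⟩
      exact hxy h
  · intro c _ hc
    rw [ind_neg]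
    rintro ⟨h, -, -⟩
    exact hc h
  · intro h
    exact absurd (Finset.mem_univ _) h

theorem mat_e (i : ℕ) (hi : i + 1 < m) (N : ℕ) : (Lk.e m i).mat N = KK m N i := by
  classical
  ext x y
  have h3 : (Lk.e m i).mat N x y = ∑ c : Fin m ⊕ Fin m → Fin N,
      ind (c ∘ Sum.inl = x ∧ c ∘ Sum.inr = y ∧ ∀ p q, (Lk.e m i).R p q → c p = c q) := rfl
  have h4 : (Lk.e m i).mat N x y = ind (x ⟨i, Nat.lt_of_succ_lt hi⟩ = x ⟨i+1, hi⟩ ∧
      y ⟨i, Nat.lt_of_succ_lt hi⟩ = y ⟨i+1, hi⟩ ∧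
      ∀ j : Fin m, (j : ℕ) ≠ i → (j : ℕ) ≠ i + 1 → x j = y j) := by
    rw [h3, Finset.sum_eq_single (Sum.elim x y)]
    · refine ind_congr ?_
      constructor
      · rintro ⟨-, -, h⟩
        exact ⟨h _ _ (Or.inl ⟨hi, rfl, rfl⟩), h _ _ (Or.inr (Or.inl ⟨hi, rfl, rfl⟩)),
          fun j hj1 hj2 => h _ _ (Or.inr (Or.inr ⟨j, hj1, hj2, rfl, rfl⟩))⟩
      · rintro ⟨h5, h6, h7⟩
        refine ⟨rfl, rfl, ?_⟩
        rintro p q (⟨_, rfl, rfl⟩ | ⟨_, rfl, rfl⟩ | ⟨j, hj1, hj2, rfl, rfl⟩)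
        · exact h5
        · exact h6
        · exact h7 j hj1 hj2
    · intro c _ hc
      rw [ind_neg]
      rintro ⟨h5, h6, -⟩
      apply hc
      funext p
      rcases p with j | j
      · exact congrFun h5 j
      · exact congrFun h6 j
    · intro h
      exact absurd (Finset.mem_univ _) h
  have h := KK_mul_apply (N := N) i hi (1 : Matrix (Fin m → Fin N) (Fin m → Fin N) ℂ) x y
  rw [mul_one] at h
  rw [h4, h]
  by_cases h1 : x ⟨i, Nat.lt_of_succ_lt hi⟩ = x ⟨i+1, hi⟩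
  · rw [if_pos h1]
    have hne1 : ∀ j : Fin m, (j : ℕ) ≠ i → j ≠ (⟨i, Nat.lt_of_succ_lt hi⟩ : Fin m) :=
      fun j hj h => hj (congrArg Fin.val h)
    have hne2 : ∀ j : Fin m, (j : ℕ) ≠ i + 1 → j ≠ (⟨i+1, hi⟩ : Fin m) :=
      fun j hj h => hj (congrArg Fin.val h)
    by_cases h2 : ∃ c, upd x ⟨i, Nat.lt_of_succ_lt hi⟩ ⟨i+1, hi⟩ c = y
    · obtain ⟨c, rfl⟩ := h2
      rw [Finset.sum_eq_single c, Matrix.one_apply, if_pos rfl, ind_pos]
      · refine ⟨h1, ?_, fun j hj1 hj2 => (upd_other x c (hne1 j hj1) (hne2 j hj2)).symm⟩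
        rw [upd_left, upd_right]
      · intro b _ hb
        rw [Matrix.one_apply, if_neg]
        intro h5
        apply hb
        have h6 := congrFun h5 ⟨i, Nat.lt_of_succ_lt hi⟩
        rw [upd_left, upd_left] at h6
        exact h6
      · intro h5
        exact absurd (Finset.mem_univ _) h5
    · rw [ind_neg, Finset.sum_eq_zero]
      · intro c _
        rw [Matrix.one_apply, if_neg (fun h3 => h2 ⟨c, h3⟩)]
      · rintro ⟨-, h5, h6⟩
        apply h2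
        refine ⟨y ⟨i, Nat.lt_of_succ_lt hi⟩, ?_⟩
        funext j
        by_cases hj1 : j = (⟨i, Nat.lt_of_succ_lt hi⟩ : Fin m)
        · rw [hj1, upd_left]
        · by_cases hj2 : j = (⟨i+1, hi⟩ : Fin m)
          · rw [hj2, upd_right, h5]
          · rw [upd_other x _ hj1 hj2]
            exact h6 j (fun h => hj1 (Fin.ext h)) (fun h => hj2 (Fin.ext h))
  · rw [if_neg h1, ind_neg]
    rintro ⟨h5, -, -⟩
    exact h1 h5

theorem trace_mat (X : Lk m) (N : ℕ) : Matrix.trace (X.mat N) = (N : ℂ) ^ X.loops := by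
  classical
  have h1 : Matrix.trace (X.mat N) = ∑ c : X.Q → Fin N,
      ind (∀ p q, X.Rc p q → c p = c q) := by
    unfold Matrix.trace
    simp only [Matrix.diag_apply, Lk.mat, Matrix.of_apply]
    rw [Finset.sum_comm]
    refine Finset.sum_congr rfl fun c _ => ?_
    rw [Finset.sum_eq_single (c ∘ X.l)]
    · refine ind_congr ?_
      constructor
      · rintro ⟨-, h2, h3⟩ p q (h4 | ⟨j, rfl, rfl⟩)
        · exact h3 p q h4
        · exact (congrFun h2 j).symm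
      · intro h
        refine ⟨rfl, ?_, fun p q hpq => h p q (Or.inl hpq)⟩
        funext j
        exact (h _ _ (Or.inr ⟨j, rfl, rfl⟩)).symm
    · intro x _ hx
      rw [ind_neg]
      rintro ⟨h, -, -⟩
      exact hx h.symm
    · intro h
      exact absurd (Finset.mem_univ _) h
  have h2 := card_colourings (N := N) X.Rc
  rw [h1]
  have h3 : (∑ c : X.Q → Fin N, ind (∀ p q, X.Rc p q → c p = c q)) =
      ((Nat.card {c : X.Q → Fin N // ∀ p q, X.Rc p q → c p = c q} : ℕ) : ℂ) := by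
    rw [Nat.card_eq_fintype_card, Fintype.card_subtype, Finset.card_eq_sum_ones, Nat.cast_sum,
      Finset.sum_filter]
    refine Finset.sum_congr rfl fun c _ => ?_
    unfold ind
    split_ifs <;> simp
  rw [h3, h2]
  push_cast
  rfl

theorem mat_word (L : List ℕ) (hL : ∀ i ∈ L, i + 1 < m) (N : ℕ) :
    (Lk.word m L).mat N = WP (KK m N) L := by
  induction L with
  | nil => rw [WP_nil]; exact mat_one N
  | cons i L ih =>
    rw [WP_cons, ← ih (fun k hk => hL k (List.mem_cons_of_mem _ hk)),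
      ← mat_e i (hL i List.mem_cons_self) N]
    exact mat_mul _ _ N

theorem trace_lam (X : Lk m) (L : List ℕ) (hL : ∀ i ∈ L, i + 1 < m) (N : ℕ) :
    Matrix.trace (X.mat N * WP (KK m N) L) = (N : ℂ) ^ X.lam L := by
  rw [← mat_word L hL N, ← mat_mul, trace_mat]
  rfl

end Pool.Agent.N271.VT
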